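import Mathlib

/-!
# A Hausdorff space which is strategically k-Menger but not k-Rothberger
-/

open Filter Topology Set MeasureTheory

open scoped ENNReal

namespace Pool.Agent.Results.MP_c24ba3_gt.MengerNotRothberger

universe u

section Defs

/-- `k`-covers: families of open sets such that every compact set is contained in a member. -/
def KCover {X : Type u} [TopologicalSpace X] (𝒰 : Set (Set X)) : Prop :=
  (∀ U ∈ 𝒰, IsOpen U) ∧ ∀ K : Set X, IsCompact K → ∃ U ∈ 𝒰, K ⊆ U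

variable (X : Type u) [TopologicalSpace X]

/-- `k`-Menger spaces. -/
def KMenger : Prop :=
  ∀ 𝒰 : ℕ → Set (Set X), (∀ n, KCover (𝒰 n)) →
    ∃ F : ℕ → Set (Set X), (∀ n, F n ⊆ 𝒰 n ∧ (F n).Finite) ∧ KCover (⋃ n, F n)

/-- `k`-Rothberger spaces. -/
def KRothberger : Prop :=
  ∀ 𝒰 : ℕ → Set (Set X), (∀ n, KCover (𝒰 n)) →
    ∃ U : ℕ → Set X, (∀ n, U n ∈ 𝒰 n) ∧ KCover (range U)

/-- Strategically `k`-Menger spaces: player P2 has a strategy `σ`, giving the answer in round `n`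
from the moves of P1 in the rounds `0, …, n`, which wins every play. -/
def StrategicallyKMenger : Prop :=
  ∃ σ : (n : ℕ) → (Fin (n + 1) → Set (Set X)) → Set (Set X),
    ∀ 𝒰 : ℕ → Set (Set X), (∀ n, KCover (𝒰 n)) →
      (∀ n, σ n (fun i => 𝒰 i) ⊆ 𝒰 n ∧ (σ n (fun i => 𝒰 i)).Finite) ∧
        KCover (⋃ n, σ n (fun i => 𝒰 i))

/-- Strategically `k`-Rothberger spaces. -/
def StrategicallyKRothberger : Prop :=
  ∃ σ : (n : ℕ) → (Fin (n + 1) → Set (Set X)) → Set X,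
    ∀ 𝒰 : ℕ → Set (Set X), (∀ n, KCover (𝒰 n)) →
      (∀ n, σ n (fun i => 𝒰 i) ∈ 𝒰 n) ∧ KCover (range fun n => σ n (fun i => 𝒰 i))

end Defs

/-- The real line with the topology of all sets `U \ C`, `U` Euclidean open and `C` countable. -/
def RC : Type := ℝ

instance : TopologicalSpace RC where
  IsOpen W := ∃ U C : Set ℝ, IsOpen U ∧ C.Countable ∧ (W : Set ℝ) = U \ C
  isOpen_univ := ⟨univ, ∅, isOpen_univ, countable_empty, by rw [sdiff_empty]; rfl⟩
  isOpen_inter := by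
    rintro _ _ ⟨U₁, C₁, h₁, c₁, rfl⟩ ⟨U₂, C₂, h₂, c₂, rfl⟩
    refine ⟨U₁ ∩ U₂, C₁ ∪ C₂, h₁.inter h₂, c₁.union c₂, ?_⟩
    ext x
    constructor
    · rintro ⟨⟨h1, h2⟩, h3, h4⟩
      exact ⟨⟨h1, h3⟩, fun h => h.elim h2 h4⟩
    · rintro ⟨⟨h1, h2⟩, h3⟩
      exact ⟨⟨h1, fun h => h3 (Or.inl h)⟩, h2, fun h => h3 (Or.inr h)⟩
  isOpen_sUnion := by
    intro S hS
    choose! U C hU hC hUC using hS
    obtain ⟨T, hT, hTU⟩ := TopologicalSpace.isOpen_iUnion_countable (fun s : S => U s.1)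
      (fun s => hU s.1 s.2)
    refine ⟨⋃ s : S, U s.1, (⋃ s : S, U s.1) \ ⋃₀ S, isOpen_iUnion fun s => hU s.1 s.2, ?_, ?_⟩
    · refine (hT.biUnion fun s _ => hC s.1 s.2).mono ?_
      rintro x ⟨hx, hx'⟩
      rw [← hTU] at hx
      obtain ⟨s, hs, hxs⟩ := mem_iUnion₂.1 hx
      refine mem_iUnion₂.2 ⟨s, hs, ?_⟩
      by_contra h
      apply hx'
      refine ⟨s.1, s.2, ?_⟩
      rw [hUC s.1 s.2]
      exact ⟨hxs, h⟩
    · have hsub : ⋃₀ S ⊆ ⋃ s : S, U s.1 := by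
        rintro x ⟨s, hs, hxs⟩
        refine mem_iUnion.2 ⟨⟨s, hs⟩, ?_⟩
        rw [hUC s hs] at hxs
        exact hxs.1
      exact (sdiff_sdiff_cancel_left hsub).symm

theorem isOpen_iff' {W : Set RC} :
    IsOpen W ↔ ∃ U C : Set ℝ, IsOpen U ∧ C.Countable ∧ (W : Set ℝ) = U \ C := Iff.rfl

theorem isOpen_of_euclid {U : Set ℝ} (h : IsOpen U) : @IsOpen RC _ U :=
  ⟨U, ∅, h, countable_empty, by rw [sdiff_empty]⟩

theorem isOpen_compl_countable {C : Set ℝ} (h : C.Countable) : @IsOpen RC _ (Cᶜ : Set ℝ) :=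
  ⟨univ, C, isOpen_univ, h, by rw [compl_eq_univ_sdiff]⟩

instance : T2Space RC := by
  refine ⟨fun x y hxy => ?_⟩
  obtain ⟨U, V, hU, hV, hx, hy, hd⟩ := @t2_separation ℝ _ _ x y hxy
  exact ⟨U, V, isOpen_of_euclid hU, isOpen_of_euclid hV, hx, hy, hd⟩

theorem finite_of_isCompact {K : Set RC} (hK : IsCompact K) : K.Finite := by
  by_contra hinf
  have hinf' : K.Infinite := hinf
  let f := hinf'.natEmbedding
  let D : Set ℝ := range fun n => (f n : RC)
  have hD : D.Countable := countable_range _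
  obtain ⟨t, ht⟩ := hK.elim_finite_subcover (fun n : ℕ => ((D \ {(f n : RC)})ᶜ : Set ℝ))
    (fun n => isOpen_compl_countable (hD.mono sdiff_subset)) (by
      intro x hx
      by_cases hxD : x ∈ D
      · obtain ⟨n, rfl⟩ := hxD
        exact mem_iUnion.2 ⟨n, fun h => h.2 rfl⟩
      · exact mem_iUnion.2 ⟨0, fun h => hxD h.1⟩)
  obtain ⟨m, hm⟩ := Infinite.exists_notMem_finset t
  obtain ⟨n, hn, hmn⟩ := mem_iUnion₂.1 (ht (f m).2)
  by_cases h : (f m : RC) = f n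
  · have h1 : f m = f n := Subtype.ext h
    exact hm (f.injective h1 ▸ hn)
  · exact hmn ⟨⟨m, rfl⟩, h⟩

theorem kcover_iff {𝒰 : Set (Set RC)} :
    KCover 𝒰 ↔ (∀ U ∈ 𝒰, IsOpen U) ∧ ∀ F : Set RC, F.Finite → ∃ U ∈ 𝒰, F ⊆ U :=
  and_congr_right fun _ => ⟨fun h F hF => h F hF.isCompact, fun h K hK =>
    h K (finite_of_isCompact hK)⟩

open Classical in
/-- The Euclidean open part of an open set. -/
noncomputable def V (W : Set RC) : Set ℝ := if h : IsOpen W then (isOpen_iff'.1 h).choose else ∅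

open Classical in
/-- The removed countable set of an open set. -/
noncomputable def C (W : Set RC) : Set ℝ :=
  if h : IsOpen W then (isOpen_iff'.1 h).choose_spec.choose else ∅

theorem V_C_spec {W : Set RC} (h : IsOpen W) :
    IsOpen (V W) ∧ (C W).Countable ∧ (W : Set ℝ) = V W \ C W := by
  have h1 := (isOpen_iff'.1 h).choose_spec.choose_spec
  unfold V C
  rw [dif_pos h, dif_pos h]
  exact h1

open Classical in
/-- An enumeration of the removed countable set. -/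
noncomputable def e (W : Set RC) : ℕ → ℝ := fun n =>
  if h : (C W).Countable then Set.enumerateCountable h 0 n else 0

theorem mem_e {W : Set RC} (h : IsOpen W) {x : ℝ} (hx : x ∈ C W) : ∃ i, e W i = x := by
  have hc := (V_C_spec h).2.1
  obtain ⟨i, hi⟩ := subset_range_enumerate hc 0 hx
  exact ⟨i, by rw [← hi]; simp [e, hc]⟩

/-- One round of the strategy. -/
theorem step (n : ℕ) (B : Set RC) (hB : B.Finite) (𝒰 : Set (Set RC)) (h : KCover 𝒰) :
    ∃ F : Set (Set RC), F ⊆ 𝒰 ∧ F.Finite ∧ (∀ U ∈ F, B ⊆ U) ∧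
      ∀ T : Finset ℝ, T.card ≤ n → (∀ x ∈ T, x ∈ Icc (-(n : ℝ)) n) → ∃ U ∈ F, (T : Set ℝ) ⊆ V U := by
  classical
  rw [kcover_iff] at h
  have hcube : IsCompact (Set.pi univ fun _ : Fin n => Icc (-(n : ℝ)) n) :=
    isCompact_univ_pi fun _ => isCompact_Icc
  let I : Type := {U : Set RC // U ∈ 𝒰 ∧ B ⊆ U}
  obtain ⟨t, ht⟩ := hcube.elim_finite_subcover (fun U : I => {y : Fin n → ℝ | ∀ i, y i ∈ V U.1})
    (fun U => by
      have : {y : Fin n → ℝ | ∀ i, y i ∈ V U.1} = Set.pi univ fun _ => V U.1 := by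
        ext y; simp
      rw [this]
      exact isOpen_set_pi finite_univ fun _ _ => (V_C_spec (h.1 U.1 U.2.1)).1)
    (by
      intro y _
      obtain ⟨U, hU, hsub⟩ := h.2 (B ∪ range y) (hB.union (finite_range y))
      refine mem_iUnion.2 ⟨⟨U, hU, subset_union_left.trans hsub⟩, fun i => ?_⟩
      have h1 : y i ∈ (U : Set ℝ) := hsub (Or.inr ⟨i, rfl⟩)
      rw [(V_C_spec (h.1 U hU)).2.2] at h1
      exact h1.1)
  refine ⟨(fun U : I => U.1) '' (t : Set I), ?_, t.finite_toSet.image _, ?_, ?_⟩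
  · rintro _ ⟨U, _, rfl⟩; exact U.2.1
  · rintro _ ⟨U, _, rfl⟩; exact U.2.2
  · intro T hT hTn
    rcases T.eq_empty_or_nonempty with rfl | hne
    · have h0 : (fun _ => 0 : Fin n → ℝ) ∈ Set.pi univ fun _ : Fin n => Icc (-(n : ℝ)) n := by
        intro i _
        exact ⟨by simp, by simp⟩
      obtain ⟨U, hU, -⟩ := mem_iUnion₂.1 (ht h0)
      exact ⟨U.1, ⟨U, hU, rfl⟩, by simp⟩
    · haveI : Nonempty T := hne.to_subtype
      obtain ⟨g⟩ : Nonempty (T ↪ Fin n) := Function.Embedding.nonempty_of_card_le (by simpa using hT)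
      let y : Fin n → ℝ := fun i => (Function.invFun g i : T)
      have hy : y ∈ Set.pi univ fun _ : Fin n => Icc (-(n : ℝ)) n := by
        intro i _
        exact hTn _ (Function.invFun g i : T).2
      obtain ⟨U, hU, hyU⟩ := mem_iUnion₂.1 (ht hy)
      refine ⟨U.1, ⟨U, hU, rfl⟩, ?_⟩
      intro x hx
      have h1 := hyU (g ⟨x, hx⟩)
      have h2 : y (g ⟨x, hx⟩) = x := by
        simp only [y]
        rw [Function.leftInverse_invFun g.injective]
      rwa [h2] at h1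

open Classical in
/-- The answer of the strategy. -/
noncomputable def ans (n : ℕ) (B : Set RC) (𝒰 : Set (Set RC)) : Set (Set RC) :=
  if h : B.Finite ∧ KCover 𝒰 then (step n B h.1 𝒰 h.2).choose else ∅

theorem ans_spec {n : ℕ} {B : Set RC} {𝒰 : Set (Set RC)} (hB : B.Finite) (h : KCover 𝒰) :
    ans n B 𝒰 ⊆ 𝒰 ∧ (ans n B 𝒰).Finite ∧ (∀ U ∈ ans n B 𝒰, B ⊆ U) ∧
      ∀ T : Finset ℝ, T.card ≤ n → (∀ x ∈ T, x ∈ Icc (-(n : ℝ)) n) →
        ∃ U ∈ ans n B 𝒰, (T : Set ℝ) ⊆ V U := by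
  unfold ans
  rw [dif_pos ⟨hB, h⟩]
  exact (step n B hB 𝒰 h).choose_spec

/-- The finite set remembered in round `n`, from the finite family of earlier answers. -/
def mem (n : ℕ) (G : Set (Set RC)) : Set RC := {x : ℝ | ∃ U ∈ G, ∃ i < n, e U i = x}

theorem mem_finite {n : ℕ} {G : Set (Set RC)} (hG : G.Finite) : (mem n G).Finite := by
  refine (hG.biUnion fun U _ => (finite_Iio n).image fun i => (e U i : RC)).subset ?_
  rintro x ⟨U, hU, i, hi, h⟩
  exact mem_iUnion₂.2 ⟨U, hU, i, hi, h⟩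

/-- The union of the answers of the rounds before `n`. -/
noncomputable def G (𝒰 : ℕ → Set (Set RC)) : ℕ → Set (Set RC)
  | 0 => ∅
  | n + 1 => G 𝒰 n ∪ ans n (mem n (G 𝒰 n)) (𝒰 n)

theorem G_congr {𝒰 𝒱 : ℕ → Set (Set RC)} {n : ℕ} (h : ∀ i < n, 𝒰 i = 𝒱 i) :
    G 𝒰 n = G 𝒱 n := by
  induction n with
  | zero => rfl
  | succ n ih =>
    have h1 := ih fun i hi => h i (by omega)
    simp only [G]
    rw [h1, h n (by omega)]

/-- The strategy. -/
noncomputable def sigma (n : ℕ) (u : Fin (n + 1) → Set (Set RC)) : Set (Set RC) :=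
  ans n (mem n (G (fun i => if h : i < n + 1 then u ⟨i, h⟩ else ∅) n)) (u (Fin.last n))

theorem sigma_eq (𝒰 : ℕ → Set (Set RC)) (n : ℕ) :
    sigma n (fun i => 𝒰 i) = ans n (mem n (G 𝒰 n)) (𝒰 n) := by
  unfold sigma
  rw [G_congr (𝒱 := 𝒰)]
  · rfl
  · intro i hi
    have : i < n + 1 := by omega
    simp [this]

theorem G_finite {𝒰 : ℕ → Set (Set RC)} (h𝒰 : ∀ n, KCover (𝒰 n)) (n : ℕ) : (G 𝒰 n).Finite := by
  induction n with
  | zero => exact finite_empty
  | succ n ih => exact ih.union (ans_spec (mem_finite ih) (h𝒰 n)).2.1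

theorem G_mono {𝒰 : ℕ → Set (Set RC)} {m n : ℕ} (h : m ≤ n) : G 𝒰 m ⊆ G 𝒰 n := by
  induction h with
  | refl => exact subset_rfl
  | step _ ih => exact ih.trans subset_union_left

theorem eventually_Icc (x : ℝ) : ∀ᶠ n : ℕ in atTop, x ∈ Icc (-(n : ℝ)) n := by
  obtain ⟨N, hN⟩ := exists_nat_gt |x|
  filter_upwards [eventually_ge_atTop N] with n hn
  have h3 : (N : ℝ) ≤ n := by exact_mod_cast hn
  rw [mem_Icc, ← abs_le]
  linarith

theorem strategicallyKMenger : StrategicallyKMenger RC := by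
  refine ⟨sigma, fun 𝒰 h𝒰 => ?_⟩
  simp only [sigma_eq]
  have hspec := fun n => ans_spec (n := n) (mem_finite (n := n) (G_finite h𝒰 n)) (h𝒰 n)
  have hop : ∀ n, ∀ U ∈ ans n (mem n (G 𝒰 n)) (𝒰 n), IsOpen U :=
    fun n U hU => (h𝒰 n).1 U ((hspec n).1 hU)
  refine ⟨fun n => ⟨(hspec n).1, (hspec n).2.1⟩, ?_⟩
  rw [kcover_iff]
  refine ⟨?_, ?_⟩
  · intro U hU
    obtain ⟨n, hn⟩ := mem_iUnion.1 hU
    exact hop n U hn
  · intro T hT
    classical
    -- the union of all removed sets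
    let CC : Set ℝ := {x | ∃ m, ∃ U ∈ ans m (mem m (G 𝒰 m)) (𝒰 m), x ∈ C U}
    -- points of `CC` are eventually remembered
    have h1 : ∀ x ∈ T, ∀ᶠ n in atTop, (x ∈ CC → x ∈ mem n (G 𝒰 n)) := by
      intro x _
      by_cases hx : x ∈ CC
      · obtain ⟨m, U, hU, hxU⟩ := hx
        obtain ⟨i, hi⟩ := mem_e (hop m U hU) hxU
        filter_upwards [eventually_ge_atTop (max (m + 1) (i + 1))] with n hn _
        exact ⟨U, G_mono (le_of_max_le_left hn) (Or.inr hU), i, by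
          have := le_of_max_le_right hn; omega, hi⟩
      · exact Eventually.of_forall fun _ h => absurd h hx
    have h2 : ∀ x ∈ T, ∀ᶠ n : ℕ in atTop, @Membership.mem ℝ (Set ℝ) _ (Icc (-(n : ℝ)) n) x :=
      fun x _ => eventually_Icc x
    have h3 := (hT.eventually_all (l := atTop)).2 h1
    have h4 := (hT.eventually_all (l := atTop)).2 h2
    obtain ⟨n, hn1, hn2, hn3⟩ := (h3.and (h4.and (eventually_ge_atTop hT.toFinset.card))).exists
    let T' : Finset ℝ := hT.toFinset.filter fun x => x ∉ CC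
    obtain ⟨U, hU, hTU⟩ := (hspec n).2.2.2 T'
      ((Finset.card_le_card (Finset.filter_subset _ _)).trans hn3)
      (fun x hx => hn2 x (hT.mem_toFinset.1 (Finset.mem_filter.1 hx).1))
    refine ⟨U, mem_iUnion.2 ⟨n, hU⟩, ?_⟩
    intro x hx
    by_cases hxC : x ∈ CC
    · exact (hspec n).2.2.1 U hU (hn1 x hx hxC)
    · have h5 : x ∈ V U := hTU (Finset.mem_coe.2 (Finset.mem_filter.2
        ⟨hT.mem_toFinset.2 hx, hxC⟩))
      have h6 : x ∉ C U := fun h => hxC ⟨n, U, hU, h⟩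
      have h7 : x ∈ (V U \ C U : Set ℝ) := ⟨h5, h6⟩
      rw [← (V_C_spec (hop n U hU)).2.2] at h7
      exact h7

theorem kMenger : KMenger RC := by
  obtain ⟨σ, hσ⟩ := strategicallyKMenger
  intro 𝒰 h𝒰
  exact ⟨_, (hσ 𝒰 h𝒰).1, (hσ 𝒰 h𝒰).2⟩

/-- The covers by sets of small measure. -/
def small (n : ℕ) : Set (Set RC) := {U : Set ℝ | IsOpen U ∧ volume U < (1 / 2) ^ (n + 2)}

theorem exists_small (F : Set ℝ) (hF : F.Finite) (n : ℕ) :
    ∃ U : Set ℝ, IsOpen U ∧ volume U < (1 / 2) ^ (n + 2) ∧ F ⊆ U := by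
  have h0 : volume F = 0 := hF.measure_zero _
  obtain ⟨U, hFU, hU, hlt⟩ := Set.exists_isOpen_lt_of_lt (μ := volume) F
    ((1 / 2 : ℝ≥0∞) ^ (n + 2)) (by
      rw [h0]
      exact ENNReal.pow_pos (by simp) _)
  exact ⟨U, hU, hlt, hFU⟩

theorem not_cover (U : ℕ → Set ℝ) (hU : ∀ n, volume (U n) < (1 / 2) ^ (n + 2)) :
    (⋃ n, U n) ≠ univ := by
  intro h1
  have h2 : volume (⋃ n, U n) ≤ ∑' n : ℕ, ((1 / 2 : ℝ≥0∞) ^ (n + 2)) :=
    (measure_iUnion_le _).trans (ENNReal.tsum_le_tsum fun n => (hU n).le)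
  have h3 : ∑' n : ℕ, ((1 / 2 : ℝ≥0∞) ^ (n + 2)) ≤ ∑' n : ℕ, ((2 : ℝ≥0∞)⁻¹ ^ n) := by
    apply ENNReal.tsum_le_tsum
    intro n
    rw [one_div]
    exact pow_le_pow_of_le_one (by simp) (by simp) (by omega)
  rw [ENNReal.tsum_geometric, ENNReal.one_sub_inv_two, inv_inv] at h3
  rw [h1, Real.volume_univ] at h2
  exact absurd (h2.trans h3) (by simp)

theorem kcover_small (n : ℕ) : KCover (small n) := by
  rw [kcover_iff]
  refine ⟨fun U hU => isOpen_of_euclid hU.1, fun F hF => ?_⟩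
  obtain ⟨U, hU, hlt, hFU⟩ := exists_small F hF n
  exact ⟨U, ⟨hU, hlt⟩, hFU⟩

theorem not_kcover_small {U : ℕ → Set RC} (hU : ∀ n, U n ∈ small n) : ¬ KCover (range U) := by
  intro h
  rw [kcover_iff] at h
  refine not_cover U (fun n => (hU n).2) (eq_univ_of_forall fun x => ?_)
  obtain ⟨_, ⟨n, rfl⟩, hn⟩ := h.2 {x} (finite_singleton _)
  exact mem_iUnion.2 ⟨n, hn rfl⟩

theorem not_kRothberger : ¬ KRothberger RC := by
  intro h
  obtain ⟨U, hU, hc⟩ := h small kcover_small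
  exact not_kcover_small hU hc

theorem not_strategicallyKRothberger : ¬ StrategicallyKRothberger RC := by
  rintro ⟨σ, hσ⟩
  obtain ⟨hU, hc⟩ := hσ small kcover_small
  exact not_kcover_small hU hc

/-- There is a Hausdorff space which is strategically `k`-Menger, hence `k`-Menger, but not
`k`-Rothberger, hence not strategically `k`-Rothberger. -/
theorem result : ∃ (X : Type) (_ : TopologicalSpace X), T2Space X ∧ KMenger X ∧
    ¬ KRothberger X ∧ StrategicallyKMenger X ∧ ¬ StrategicallyKRothberger X :=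
  ⟨RC, inferInstance, inferInstance, kMenger, not_kRothberger, strategicallyKMenger,
    not_strategicallyKRothberger⟩

end Pool.Agent.Results.MP_c24ba3_gt.MengerNotRothberger
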