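import Pool.Agent.R812.KMenger

/-!
# Strategically k-Menger spaces need not be k-Rothberger
-/

set_option autoImplicit false

namespace Pool.Agent.Results.MP_c24ba3_gt.StratMengerNotRothberger

open Pool.Agent.R812.KMeng

/-- Negative answer to both questions: there is a Hausdorff space `X` which is strategically
`k`-Menger (hence `k`-Menger) but which is not `k`-Rothberger (hence not strategically
`k`-Rothberger). -/
theorem result : ∃ (X : Type) (_ : TopologicalSpace X), T2Space X ∧
    StratKMenger X ∧ KMenger X ∧ ¬ KRothberger X ∧ ¬ StratKRothberger X :=
  ⟨XX, inferInstance, inferInstance, stratKMenger, stratKMenger.kMenger, not_kRothberger,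
    fun h => not_kRothberger h.kRothberger⟩

end Pool.Agent.Results.MP_c24ba3_gt.StratMengerNotRothberger
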